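import Pool.Agent.H530R3.Bp.Cell
import Pool.Agent.H530R3.Am.Alg

/-!
# The deterministic algorithm
-/

set_option autoImplicit false

namespace Pool.Agent.H530R3.Bp

open Pool.Agent.NPC Pool.Agent.H628R3.RO MeasureTheory
open Pool.Agent.H530R3.Thr hiding InP inNP_of_inP
open Pool.Agent.H583R2.S2 (IsP)
open Pool.Agent.H943R5.GC.U6 (sj idx_sj sj_bounds inc poly_inc)

theorem sj_length_le (k : ℕ) : (sj k).length ≤ k := by
  have h1 := (sj_bounds k).1
  have h2 : (sj k).length < 2 ^ (sj k).length := Nat.lt_two_pow_self
  omega

theorem p_sj {α : Type} [TEnc α] {n : α → ℕ} (hn : UPoly n) : Poly (fun a => sj (n a)) := by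
  obtain ⟨q, hq⟩ := (show Poly (fun a => List.replicate (n a) ()) from hn).sz_le
  have key : ∀ k, (List.replicate k ()).foldl (fun (s : List Bool) (_ : Unit) => inc s) [] = sj k := by
    intro k
    unfold sj
    rw [List.foldl_const, List.length_replicate]
  have h : Poly (fun a => (List.replicate (n a) ()).foldl
      (fun (s : List Bool) (_ : Unit) => inc s) []) := by
    refine Poly.foldl (l := fun a => List.replicate (n a) ()) (s := fun _ => ([] : List Bool))
      (F := fun _ s _ => inc s) hn (NPC.Poly.const _) (poly_inc.comp (Poly.fst (Poly.snd Poly.id)))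
      (Polynomial.C 4 * q + Polynomial.C 1) ?_
    intro a k _
    have e1 : (List.replicate (n a) ()).take k = List.replicate (min k (n a)) () := by
      rw [List.take_replicate]
    have e2 := length_lt_sz (List.replicate (n a) ())
    rw [List.length_replicate] at e2
    have e3 := hq a
    have e4 := sz_listBool_le (sj (min k (n a)))
    have e5 := sj_length_le (min k (n a))
    have e6 : min k (n a) ≤ n a := min_le_right _ _
    simp only [Polynomial.eval_add, Polynomial.eval_mul, Polynomial.eval_C]
    rw [e1, key]
    omega
  exact h.congr fun a => (key (n a))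

theorem xorl_map {β : Type*} (l : List β) (f : β → Bool) :
    xorl (l.map f) = decide ((l.filter f).length % 2 = 1) := by
  induction l with
  | nil => simp [xorl]
  | cons b l ih =>
    rw [List.map_cons, xorl_cons, ih]
    cases hb : f b with
    | false =>
      rw [List.filter_cons_of_neg (by simp [hb]), Bool.false_xor]
    | true =>
      rw [List.filter_cons_of_pos (by simp [hb]), List.length_cons, Bool.true_xor]
      rw [← decide_not, decide_eq_decide]
      omega

/-- the value of a coin, from the table -/
def cv (B T c : ℕ) (tab : List Bool) : Bool :=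
  decide (((List.range B).filter
    (fun a => decide (a % T = c) && tab.getD a false)).length % 2 = 1)

/-- the table -/
def tabA (B : ℕ) (A : Oracle) : List Bool := (List.range B).map fun a => A (sj a)

theorem tabA_getD {B a : ℕ} (h : a < B) (A : Oracle) : (tabA B A).getD a false = A (sj a) := by
  simp [tabA, List.getD, h]

theorem cv_eq (B T c : ℕ) (A : Oracle) : cv B T c (tabA B A) = xorl ((cellC B T c).map A) := by
  unfold cv cellC
  rw [List.map_map, xorl_map, List.filter_filter]
  congr 3
  refine congrArg List.length (List.filter_congr fun a ha => ?_)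
  rw [List.mem_range] at ha
  rw [tabA_getD ha, Bool.and_comm]
  rfl

/-- the coins of the block `i`, from the table -/
def cs (Q t B i : ℕ) (tab : List Bool) : List Bool :=
  (List.range Q).map fun i' => cv B (t * Q) (i * Q + i') tab

theorem cs_eq (Q t B i : ℕ) (A : Oracle) : cs Q t B i (tabA B A) = coins (cell B t Q i) Q A := by
  unfold cs coins cell
  exact List.map_congr_left fun i' _ => cv_eq _ _ _ A

section

variable (q w Bp : Polynomial ℕ)

/-- the question number `i` -/
def WB (s : ℕ × List Bool) : List Bool :=
  pairBits (unpair s.2).1 (cs (q.eval (unpair s.2).1.length) (20 * w.eval (unpair s.2).1.length)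
    (Bp.eval (unpair s.2).1.length) s.1 (unpair s.2).2)

/-- the final test -/
def HB (s : List Bool × List Bool) : List Bool :=
  if 20 * w.eval (unpair s.1).1.length < 2 * ((List.range (20 * w.eval (unpair s.1).1.length)).filter
    fun i => s.2.getD i false).length then [true] else []

theorem p_WB : Poly (WB q w Bp) := by
  have hx : Poly (fun s : ℕ × List Bool => (unpair s.2).1) := p_un1 (Poly.snd Poly.id)
  have ht : Poly (fun s : ℕ × List Bool => (unpair s.2).2) := p_un2 (Poly.snd Poly.id)
  have hn : UPoly (fun s : ℕ × List Bool => (unpair s.2).1.length) := UPoly.length hx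
  have hQ := hn.eval q
  have hB := hn.eval Bp
  have hT : Poly (fun s : ℕ × List Bool => 20 * w.eval (unpair s.2).1.length *
      q.eval (unpair s.2).1.length) :=
    Poly.mul (Poly.mul (NPC.Poly.const _) (hn.eval w).toPoly) hQ.toPoly
  refine H622R2.poly_pairBits hx ?_
  refine NPC.Poly.map (F := fun (s : ℕ × List Bool) (i' : ℕ) =>
    cv (Bp.eval (unpair s.2).1.length) (20 * w.eval (unpair s.2).1.length *
      q.eval (unpair s.2).1.length) (s.1 * q.eval (unpair s.2).1.length + i') (unpair s.2).2)
    hQ.range ?_
  have f1 : Poly (fun r : (ℕ × List Bool) × ℕ => r.1) := Poly.fst Poly.id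
  unfold cv
  refine Poly.decide_eq (Poly.mod (Poly.length (Poly.filter
    (p := fun (r : (ℕ × List Bool) × ℕ) (a : ℕ) => decide (a % (20 * w.eval (unpair r.1.2).1.length *
      q.eval (unpair r.1.2).1.length) = r.1.1 * q.eval (unpair r.1.2).1.length + r.2) &&
        (unpair r.1.2).2.getD a false) ((hB.comp f1).range) ?_)) (NPC.Poly.const _))
    (NPC.Poly.const _)
  have g1 : Poly (fun r : ((ℕ × List Bool) × ℕ) × ℕ => r.1.1) := Poly.fst (Poly.fst Poly.id)
  refine Poly.and (Poly.decide_eq (Poly.mod (Poly.snd Poly.id) (hT.comp g1)) ?_) ?_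
  · exact Poly.add (Poly.mul (Poly.fst g1) (hQ.toPoly.comp g1)) (Poly.snd (Poly.fst Poly.id))
  · exact Poly.getD (ht.comp g1) (Poly.snd Poly.id) (NPC.Poly.const _)

theorem p_HB : Poly (HB w) := by
  have hx : Poly (fun s : List Bool × List Bool => (unpair s.1).1) := p_un1 (Poly.fst Poly.id)
  have hn : UPoly (fun s : List Bool × List Bool => (unpair s.1).1.length) := UPoly.length hx
  have ht : UPoly (fun s : List Bool × List Bool => 20 * w.eval (unpair s.1).1.length) := by
    refine NPC.Poly.congr (hn.eval (20 * w)) fun s => ?_
    simp only [Polynomial.eval_mul, Polynomial.eval_ofNat]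
  refine Poly.ite (Poly.decide_lt ht.toPoly (Poly.mul (NPC.Poly.const _) (Poly.length
    (Poly.filter (p := fun (s : List Bool × List Bool) (i : ℕ) => s.2.getD i false) ht.range ?_))))
    (NPC.Poly.const _) (NPC.Poly.const _)
  exact Poly.getD (Poly.snd (Poly.fst Poly.id)) (Poly.snd Poly.id) (NPC.Poly.const _)

/-- the table is computed in polynomial time -/
theorem isFP_tab (A : Oracle) : IsFP A (fun x => pairBits x (tabA (Bp.eval x.length) A)) := by
  have hn : UPoly (fun x : List Bool => Bp.eval x.length) := (UPoly.length Poly.id).eval Bp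
  have h1 : Poly (fun x : List Bool => (List.range (Bp.eval x.length)).map
      (fun i => sj (min i (Bp.eval x.length)))) := by
    refine NPC.Poly.map (F := fun (x : List Bool) (i : ℕ) => sj (min i (Bp.eval x.length)))
      hn.range (p_sj ?_)
    exact UPoly.of_le (Poly.min (Poly.snd Poly.id) (hn.comp (Poly.fst Poly.id)).toPoly)
      (hn.comp (Poly.fst Poly.id)) fun s => min_le_right _ _
  have h2 := IsFP.tt (A := A) (Q := fun x : List Bool => (List.range (Bp.eval x.length)).map
      (fun i => sj (min i (Bp.eval x.length)))) (H := fun s => pairBits s.1 s.2) h1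
    (H622R2.poly_pairBits (Poly.fst Poly.id) (Poly.snd Poly.id))
  refine (funext fun x => ?_ : (fun x => pairBits x (tabA (Bp.eval x.length) A)) = _) ▸ h2
  simp only
  congr 1
  unfold tabA
  rw [List.map_map]
  refine List.map_congr_left fun i hi => ?_
  rw [List.mem_range] at hi
  rw [Function.comp_apply, min_eq_left hi.le]

open Classical in
/-- the language of the algorithm -/
theorem isP_maj {A : Oracle} {V : List Bool → List Bool} (hV : IsFP A V) :
    IsP A {x | 20 * w.eval x.length < 2 * ((Finset.range (20 * w.eval x.length)).filter fun i =>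
      V (pairBits x (coins (cell (Bp.eval x.length) (20 * w.eval x.length) (q.eval x.length) i)
        (q.eval x.length) A)) = [true]).card} := by
  have h1 := H490R3.LH.t_VOT A V hV (20 * w) (WB q w Bp) (p_WB q w Bp) (HB w) (p_HB w)
  have h2 := IsFP.comp h1 (isFP_tab Bp A)
  refine ⟨_, h2, fun x => ?_⟩
  simp only [HB, WB, unpair_pairBits, Set.mem_ofPred_eq]
  have hlen : x.length ≤ (pairBits x (tabA (Bp.eval x.length) A)).length := by
    rw [length_pairBits]
    omega
  have hT : 20 * w.eval x.length ≤
      (20 * w).eval (pairBits x (tabA (Bp.eval x.length) A)).length := by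
    rw [Polynomial.eval_mul, Polynomial.eval_ofNat]
    exact Nat.mul_le_mul_left _ (eval_mono' w hlen)
  have e : ((List.range (20 * w.eval x.length)).filter fun i =>
      ((List.range ((20 * w).eval (pairBits x (tabA (Bp.eval x.length) A)).length)).map
        fun i => decide (V (pairBits x (cs (q.eval x.length) (20 * w.eval x.length)
          (Bp.eval x.length) i (tabA (Bp.eval x.length) A))) = [true])).getD i false).length =
      ((Finset.range (20 * w.eval x.length)).filter fun i =>
      V (pairBits x (coins (cell (Bp.eval x.length) (20 * w.eval x.length) (q.eval x.length) i)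
        (q.eval x.length) A)) = [true]).card := by
    rw [Am.card_range_filter, ← Set.ncard_coe_finset]
    congr 1
    ext i
    simp only [Set.mem_ofPred_eq, Finset.coe_filter, Finset.mem_range]
    refine and_congr_right fun hi => ?_
    rw [List.getD_eq_getElem _ _ (by
      rw [List.length_map, List.length_range]
      exact hi.trans_le hT), List.getElem_map, List.getElem_range, decide_eq_true_iff, cs_eq]
  rw [e]
  split_ifs with h <;> simp [h]

end

theorem isP_patch {A : Oracle} {L L' : Set (List Bool)} (h : IsP A L') (n₀ : ℕ)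
    (hL : ∀ x : List Bool, n₀ ≤ x.length → (x ∈ L ↔ x ∈ L')) : IsP A L := by
  classical
  obtain ⟨V, hV, hL'⟩ := h
  let S : List (List Bool) := (((Finset.range n₀).biUnion words).filter (fun x => x ∈ L)).toList
  have hS : ∀ x : List Bool, x.length < n₀ → (ofL S x = true ↔ x ∈ L) := by
    intro x hx
    unfold ofL
    rw [decide_eq_true_iff]
    simp only [S, Finset.mem_toList, Finset.mem_filter, Finset.mem_biUnion, Finset.mem_range,
      mem_words]
    exact ⟨fun h => h.2, fun h => ⟨⟨x.length, hx, rfl⟩, h⟩⟩
  have h1 := IsFP.seq (φ := fun p : List Bool × List Bool => p.1)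
    (ψ := fun t : List Bool × List Bool × List Bool =>
      if n₀ ≤ t.1.length then t.2.1 else [ofL S t.1])
    hV hV (Poly.fst Poly.id) (Poly.ite (Poly.decide_le (NPC.Poly.const _)
      (Poly.length (Poly.fst Poly.id))) (Poly.fst (Poly.snd Poly.id))
      (Poly.cons (p_ofL (NPC.Poly.const _) (Poly.fst Poly.id)) (NPC.Poly.const _)))
  refine ⟨_, h1, fun x => ?_⟩
  by_cases hx : n₀ ≤ x.length
  · simp only [hx, if_true]
    rw [hL x hx, hL' x]
  · simp only [hx, if_false]
    rw [← hS x (not_le.1 hx)]
    simp

end Pool.Agent.H530R3.Bp
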