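import Pool.Agent.H530R3.Thr.Final

/-!
# The questions of an algorithm
-/

set_option autoImplicit false

namespace Pool.Agent.H530R3.Bp

open Pool.Agent.NPC Pool.Agent.H628R3.RO MeasureTheory
open Pool.Agent.H530R3.Thr hiding InP inNP_of_inP

/-- the questions asked in at most `n` further steps -/
def askedAux (M : Alg) (A : Oracle) (x : List Bool) : ℕ → List Bool → List (List Bool)
  | 0, _ => []
  | n + 1, a => match M.D (pairBits x a) with
    | [] => []
    | true :: _ => []
    | false :: q => q :: askedAux M A x n (a ++ [A q])

/-- the questions asked -/
def asked (M : Alg) (A : Oracle) (x : List Bool) : List (List Bool) :=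
  askedAux M A x (M.p.eval x.length) []

theorem askedAux_length (M : Alg) (A : Oracle) (x : List Bool) : ∀ (n : ℕ) (a : List Bool),
    (askedAux M A x n a).length ≤ n := by
  intro n
  induction n with
  | zero => intro a; simp [askedAux]
  | succ n ih =>
    intro a
    rw [askedAux]
    rcases hq : M.D (pairBits x a) with _ | ⟨c, q⟩
    · simp
    · cases c with
      | true => simp
      | false =>
        have := ih (a ++ [A q])
        simp only [List.length_cons]
        omega

theorem askedAux_congr (M : Alg) {A A' : Oracle} (x : List Bool) : ∀ (n : ℕ) (a : List Bool),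
    (∀ z ∈ askedAux M A x n a, A' z = A z) → askedAux M A' x n a = askedAux M A x n a ∧
      M.run A' x n a = M.run A x n a := by
  intro n
  induction n with
  | zero => intro a _; exact ⟨rfl, rfl⟩
  | succ n ih =>
    intro a
    rw [askedAux, askedAux, Alg.run, Alg.run]
    rcases hq : M.D (pairBits x a) with _ | ⟨c, q⟩
    · intro _; exact ⟨rfl, rfl⟩
    · cases c with
      | true => intro _; exact ⟨rfl, rfl⟩
      | false =>
        intro h
        simp only at h ⊢
        have h1 : A' q = A q := h q (by simp)
        rw [h1]
        have h2 := ih (a ++ [A q]) fun z hz => h z (List.mem_cons_of_mem _ hz)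
        exact ⟨by rw [h2.1], h2.2⟩

theorem asked_length (M : Alg) (A : Oracle) (x : List Bool) :
    (asked M A x).length ≤ M.p.eval x.length := askedAux_length M A x _ _

theorem asked_congr (M : Alg) {A A' : Oracle} (x : List Bool)
    (h : ∀ z ∈ asked M A x, A' z = A z) : asked M A' x = asked M A x ∧ M.out A' x = M.out A x :=
  askedAux_congr M x _ _ h

theorem asked_short (M : Alg) : ∃ b : Polynomial ℕ, ∀ (A : Oracle) (x : List Bool),
    ∀ z ∈ asked M A x, z.length ≤ b.eval x.length := by
  obtain ⟨b, hb⟩ := M.next_length
  refine ⟨b, fun A x => ?_⟩
  have key : ∀ (n : ℕ) (a : List Bool), a.length + n ≤ M.p.eval x.length →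
      ∀ z ∈ askedAux M A x n a, z.length ≤ b.eval x.length := by
    intro n
    induction n with
    | zero => intro a _ z hz; simp [askedAux] at hz
    | succ n ih =>
      intro a ha z hz
      have hD := hb x a (by omega)
      rw [askedAux] at hz
      rcases hq : M.D (pairBits x a) with _ | ⟨c, q⟩
      · rw [hq] at hz
        simp at hz
      · rw [hq] at hz
        cases c with
        | true => simp at hz
        | false =>
          rcases List.mem_cons.1 hz with rfl | hz
          · rw [hq, List.length_cons] at hD
            omega
          · exact ih (a ++ [A q]) (by rw [List.length_append, List.length_singleton]; omega) z hz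
  exact key _ [] (by simp)

end Pool.Agent.H530R3.Bp
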