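import Pool.Agent.H530R3.Bp.Core
import Pool.Agent.H530R3.Adv.Growth
import Pool.Agent.H943R5.GC.U6

/-!
# The cells: the strings are distributed evenly
-/

set_option autoImplicit false

namespace Pool.Agent.H530R3.Bp

open Pool.Agent.NPC Pool.Agent.H628R3.RO MeasureTheory
open Pool.Agent.H530R3.Thr hiding InP inNP_of_inP
open Pool.Agent.H943R5.GC.U6 (sj idx_sj sj_bounds)

variable {p : ℕ → unitInterval}

theorem sj_inj : Function.Injective sj := fun i j h => by
  have h1 := idx_sj i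
  rw [h, idx_sj] at h1
  exact h1.symm

/-- the cell number `c` of `T` -/
def cellC (B T c : ℕ) : List (List Bool) :=
  ((List.range B).filter fun i => i % T = c).map sj

theorem mem_cellC {B T c : ℕ} {x : List Bool} :
    x ∈ cellC B T c ↔ ∃ i < B, i % T = c ∧ sj i = x := by
  simp only [cellC, List.mem_map, List.mem_filter, List.mem_range, decide_eq_true_eq]
  constructor
  · rintro ⟨i, ⟨h1, h2⟩, h3⟩
    exact ⟨i, h1, h2, h3⟩
  · rintro ⟨i, h1, h2, h3⟩
    exact ⟨i, ⟨h1, h2⟩, h3⟩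

theorem nodup_cellC (B T c : ℕ) : (cellC B T c).Nodup :=
  (List.nodup_range.filter _).map sj_inj

theorem cellC_disjoint {B T c c' : ℕ} (h : c ≠ c') {x : List Bool} (hx : x ∈ cellC B T c) :
    x ∉ cellC B T c' := by
  intro hx'
  obtain ⟨i, _, h1, h2⟩ := mem_cellC.1 hx
  obtain ⟨i', _, h1', h2'⟩ := mem_cellC.1 hx'
  have h3 := sj_inj (h2.trans h2'.symm)
  subst h3
  exact h (h1.symm.trans h1')

theorem length_sj_of {a N : ℕ} (h1 : 2 ^ N ≤ a + 1) (h2 : a + 1 < 2 ^ (N + 1)) :
    (sj a).length = N := by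
  obtain ⟨h3, h4⟩ := sj_bounds a
  have h5 : 2 ^ (sj a).length < 2 ^ (N + 1) := by omega
  have h6 : 2 ^ N < 2 ^ ((sj a).length + 1) := by omega
  have h7 := (Nat.pow_lt_pow_iff_right (by norm_num : 1 < 2)).1 h5
  have h8 := (Nat.pow_lt_pow_iff_right (by norm_num : 1 < 2)).1 h6
  omega

/-- every cell has its share of each level -/
theorem le_card_level {B T c N : ℕ} (hc : c < T) (hB : 2 ^ (N + 1) ≤ B) :
    2 ^ N / T ≤ ((cellC B T c).filter fun x => x.length = N).length := by
  have hT : 0 < T := by omega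
  -- the first element of the residue class in the level
  set s := 2 ^ N - 1 with hs
  have hpos : 0 < 2 ^ N := by positivity
  obtain ⟨e, he1, he2⟩ : ∃ e < T, (s + e) % T = c := by
    refine ⟨(c + (T - s % T)) % T, Nat.mod_lt _ hT, ?_⟩
    have h1 : s % T < T := Nat.mod_lt _ hT
    have h2 : s = T * (s / T) + s % T := (Nat.div_add_mod s T).symm
    rw [Nat.add_mod, Nat.mod_mod, ← Nat.add_mod]
    have h3 : s + (c + (T - s % T)) = c + T * (s / T + 1) := by
      rw [Nat.mul_add, Nat.mul_one]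
      omega
    rw [h3, Nat.add_mul_mod_self_left, Nat.mod_eq_of_lt hc]
  have h2 : ((List.range (2 ^ N / T)).map fun m => sj (s + e + m * T)).Nodup := by
    refine List.nodup_range.map fun m m' h => ?_
    have h3 := sj_inj h
    have h4 : m * T = m' * T := by omega
    exact Nat.eq_of_mul_eq_mul_right hT h4
  have h3 : ((List.range (2 ^ N / T)).map fun m => sj (s + e + m * T)) ⊆
      (cellC B T c).filter fun x => x.length = N := by
    intro x hx
    obtain ⟨m, hm, rfl⟩ := List.mem_map.1 hx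
    rw [List.mem_range] at hm
    have h4 : m * T + T ≤ 2 ^ N := by
      have h5 : (m + 1) * T ≤ 2 ^ N / T * T := Nat.mul_le_mul_right _ hm
      have h6 := Nat.div_mul_le_self (2 ^ N) T
      have h7 : (m + 1) * T = m * T + T := by ring
      omega
    have h8 : 2 ^ (N + 1) = 2 * 2 ^ N := by ring
    rw [List.mem_filter, decide_eq_true_eq]
    refine ⟨mem_cellC.2 ⟨s + e + m * T, by omega, ?_, rfl⟩, length_sj_of (by omega) (by omega)⟩
    rw [Nat.add_mul_mod_self_right]
    exact he2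
  have h4 := (List.subperm_of_subset h2 h3).length_le
  rwa [List.length_map, List.length_range] at h4

/-- the coins of the block `j` -/
def cell (B t Q j i : ℕ) : List (List Bool) := cellC B (t * Q) (j * Q + i)

theorem cell_disjoint_block {B t Q i j : ℕ} (h : i ≠ j) :
    Disjoint (used (cell B t Q i) Q) (used (cell B t Q j) Q) := by
  rw [Set.disjoint_left]
  rintro x ⟨a, ha, hx⟩ ⟨b, hb, hx'⟩
  refine cellC_disjoint ?_ hx hx'
  intro h1
  rcases lt_or_gt_of_ne h with h2 | h2
  · have h3 : (i + 1) * Q ≤ j * Q := Nat.mul_le_mul_right _ h2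
    have h4 : (i + 1) * Q = i * Q + Q := by ring
    omega
  · have h3 : (j + 1) * Q ≤ i * Q := Nat.mul_le_mul_right _ h2
    have h4 : (j + 1) * Q = j * Q + Q := by ring
    omega

theorem pr_cell {B t Q N : ℕ} (hB : 2 ^ (N + 1) ≤ B)
    (hlam : 25 * ((Q : ℝ) + 1) * (t * Q) ≤ lam p N) {j i : ℕ} (hj : j < t) (hi : i < Q)
    (v : Bool) : pr p (parEv (cell B t Q j i) v) ≤ (1 + 1 / (25 * ((Q : ℝ) + 1))) / 2 := by
  have hc : j * Q + i < t * Q := by
    have h3 : (j + 1) * Q ≤ t * Q := Nat.mul_le_mul_right _ hj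
    have h4 : (j + 1) * Q = j * Q + Q := by ring
    omega
  set T := t * Q with hT
  have hTp : 0 < T := by omega
  have hTr : (0 : ℝ) < (t * Q : ℝ) := by exact_mod_cast hTp
  refine pr_parEv_le (nodup_cellC _ _ _) v ((abs_prod_le N _).trans ?_)
  set μ := min (p N : ℝ) (1 - p N) with hμ
  have hμ0 : 0 ≤ μ := le_min (p N).2.1 (by linarith [(p N).2.2])
  have hlam' : lam p N = 2 ^ N * μ := rfl
  have hle := Adv.lam_le p N
  have hQ0 : (0 : ℝ) ≤ Q := Nat.cast_nonneg Q
  have hTN : T ≤ 2 ^ N := by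
    have h1 : ((t * Q : ℕ) : ℝ) ≤ 2 ^ N := by
      refine le_trans ?_ (hlam.trans hle)
      push_cast
      nlinarith
    exact_mod_cast h1
  have h1 : (2 ^ N : ℝ) / (2 * (t * Q)) ≤ ((2 ^ N / T : ℕ) : ℝ) := by
    have h2 : 2 ^ N ≤ 2 ^ N / T * (2 * T) := by
      have h3 := Nat.div_add_mod (2 ^ N) T
      have h4 := Nat.mod_lt (2 ^ N) hTp
      have h5 : 1 ≤ 2 ^ N / T := (Nat.one_le_div_iff hTp).2 hTN
      have h6 : T * 1 ≤ T * (2 ^ N / T) := Nat.mul_le_mul_left _ h5
      have h7 : 2 ^ N / T * (2 * T) = T * (2 ^ N / T) + T * (2 ^ N / T) := by ring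
      omega
    rw [div_le_iff₀ (by positivity)]
    have h3 : ((2 ^ N : ℕ) : ℝ) ≤ ((2 ^ N / T * (2 * T) : ℕ) : ℝ) := by exact_mod_cast h2
    push_cast [hT] at h3 ⊢
    exact h3
  have h2 : ((2 ^ N / T : ℕ) : ℝ) ≤
      (((cellC B T (j * Q + i)).filter fun x => x.length = N).length : ℝ) := by
    exact_mod_cast le_card_level hc hB
  have h3 : 25 * ((Q : ℝ) + 1) ≤ 2 * μ *
      (((cellC B T (j * Q + i)).filter fun x => x.length = N).length : ℝ) := by
    calc 25 * ((Q : ℝ) + 1) ≤ lam p N / (t * Q) := by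
          rw [le_div_iff₀ hTr]
          exact hlam
      _ = 2 * μ * ((2 ^ N : ℝ) / (2 * (t * Q))) := by
          rw [hlam']
          field_simp
      _ ≤ _ := mul_le_mul_of_nonneg_left (h1.trans h2) (by positivity)
  have h4 : (0 : ℝ) < 25 * ((Q : ℝ) + 1) := by positivity
  calc Real.exp (-(2 * μ * (((cellC B T (j * Q + i)).filter fun x => x.length = N).length : ℝ))) ≤
        Real.exp (-(25 * ((Q : ℝ) + 1))) := Real.exp_le_exp.2 (by linarith)
    _ = 1 / Real.exp (25 * ((Q : ℝ) + 1)) := by rw [Real.exp_neg, one_div]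
    _ ≤ 1 / (25 * ((Q : ℝ) + 1)) := by
        refine one_div_le_one_div_of_le h4 ?_
        linarith [Real.add_one_le_exp (25 * ((Q : ℝ) + 1))]

theorem two_pow_mul_le (Q : ℕ) :
    (2 : ℝ) ^ Q * ((1 + 1 / (25 * ((Q : ℝ) + 1))) / 2) ^ Q ≤ 21 / 20 := by
  set β : ℝ := 1 / (25 * ((Q : ℝ) + 1)) with hβ
  have hQ0 : (0 : ℝ) ≤ Q := Nat.cast_nonneg Q
  have hβ0 : 0 < β := by positivity
  have hβ1 : β ≤ 1 / 25 := by
    rw [hβ]
    refine one_div_le_one_div_of_le (by norm_num) (by linarith)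
  have hβQ : Q * β ≤ 1 / 25 := by
    rw [hβ, mul_one_div, div_le_div_iff₀ (by positivity) (by norm_num)]
    linarith
  have h1 : (2 : ℝ) ^ Q * ((1 + β) / 2) ^ Q = (1 + β) ^ Q := by
    rw [← mul_pow]
    congr 1
    ring
  have h2 : 1 - 1 / 25 ≤ (1 - β) ^ Q := by
    have h3 := one_add_mul_le_pow (a := -β) (by linarith) Q
    have h4 : (1 + -β) ^ Q = (1 - β) ^ Q := by ring
    rw [h4] at h3
    linarith
  have h3 : (1 + β) ^ Q * (1 - β) ^ Q ≤ 1 := by
    rw [← mul_pow]
    refine pow_le_one₀ (by nlinarith) (by nlinarith)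
  have h4 : 0 ≤ (1 + β) ^ Q := by positivity
  rw [h1]
  nlinarith

theorem pr_block {B t Q N : ℕ} (hB : 2 ^ (N + 1) ≤ B)
    (hlam : 25 * ((Q : ℝ) + 1) * (t * Q) ≤ lam p N) : ∀ j < t, ∀ R : Finset (List Bool),
    pr p {A | coins (cell B t Q j) Q A ∈ R} ≤
      R.card * ((1 + 1 / (25 * ((Q : ℝ) + 1))) / 2) ^ Q := by
  classical
  intro j hj R
  -- outside the block, use the cell of `0`
  rcases Nat.eq_zero_or_pos Q with hQ | hQ
  · subst hQ
    have h1 : {A : Oracle | coins (cell B t 0 j) 0 A ∈ R} ⊆ {A : Oracle | [] ∈ R} := by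
      intro A hA
      simpa [coins] using hA
    rw [pow_zero, mul_one]
    by_cases h2 : ([] : List Bool) ∈ R
    · refine (pr_le_one _).trans ?_
      exact_mod_cast Finset.card_pos.2 ⟨_, h2⟩
    · refine (pr_mono h1).trans ?_
      have h3 : {A : Oracle | ([] : List Bool) ∈ R} = ∅ := by
        ext A
        simp [h2]
      rw [h3]
      simp [pr]
  set cell' : ℕ → List (List Bool) := fun i => if i < Q then cell B t Q j i else
    cell B t Q j 0 with hcell'
  have h1 : ∀ A, coins (cell B t Q j) Q A = coins cell' Q A := by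
    intro A
    unfold coins
    refine List.map_congr_left fun i hi => ?_
    rw [List.mem_range] at hi
    simp only [hcell', if_pos hi]
  have h2 : {A : Oracle | coins (cell B t Q j) Q A ∈ R} = {A | coins cell' Q A ∈ R} := by
    ext A
    simp only [Set.mem_ofPred_eq, h1]
  rw [h2]
  refine pr_coins_mem (fun i v => ?_) (fun a ha b hb hab x hx => ?_) R
  · simp only [hcell']
    split_ifs with h3
    · exact pr_cell hB hlam hj h3 v
    · exact pr_cell hB hlam hj hQ v
  · simp only [hcell', if_pos ha, if_pos hb] at hx ⊢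
    exact cellC_disjoint (by omega) hx

end Pool.Agent.H530R3.Bp
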