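import Pool.Agent.H530R3.Am.Prob

/-!
# Coins which are extracted from the oracle
-/

set_option autoImplicit false

namespace Pool.Agent.H530R3.Bp

open Pool.Agent.NPC Pool.Agent.H628R3.RO MeasureTheory
open Pool.Agent.H530R3.Thr hiding InP inNP_of_inP
open Pool.Agent.H530R3.Am (sum_pr_le)

variable {p : ℕ → unitInterval}

/-- the parity of the number of `true`s -/
def xorl (bs : List Bool) : Bool := bs.foldr (fun b c => xor b c) false

theorem xorl_cons (b : Bool) (bs : List Bool) : xorl (b :: bs) = xor b (xorl bs) := rfl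

/-- the parity of the bits of the oracle at the strings of `l` is `v` -/
def parEv (l : List (List Bool)) (v : Bool) : Set Oracle := {A | xorl (l.map A) = v}

theorem loc_parEv (l : List (List Bool)) (v : Bool) : Loc {x | x ∈ l} (parEv l v) := by
  intro A A' h
  unfold parEv
  have h1 : l.map A = l.map A' := List.map_congr_left fun x hx => h x hx
  simp only [Set.mem_ofPred_eq, h1]

theorem finite_mem (l : List (List Bool)) : {x | x ∈ l}.Finite := List.finite_toSet l

theorem pr_single (x : List Bool) (b : Bool) : pr p {A | A x = b} = qq p x.length b := by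
  have h := pr_full (p := p) (J := {x}) (n := x.length) (by simp) b
  rw [Finset.card_singleton, pow_one] at h
  rw [← h]
  congr 1
  ext A
  simp [Full]

theorem pr_parEv : ∀ (l : List (List Bool)), l.Nodup → 
    pr p (parEv l true) = (1 - (l.map fun x => 1 - 2 * (p x.length : ℝ)).prod) / 2 ∧
    pr p (parEv l false) = (1 + (l.map fun x => 1 - 2 * (p x.length : ℝ)).prod) / 2 := by
  intro l
  induction l with
  | nil =>
    intro _
    have h1 : parEv [] true = ∅ := by
      ext A
      simp [parEv, xorl]
    have h2 : parEv [] false = Set.univ := by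
      ext A
      simp [parEv, xorl]
    rw [h1, h2]
    simp [pr]
  | cons x l ih =>
    intro hl
    rw [List.nodup_cons] at hl
    obtain ⟨ih1, ih2⟩ := ih hl.2
    have hL : ∀ b, Loc {x} {A : Oracle | A x = b} := by
      intro b A A' h
      simp only [Set.mem_ofPred_eq, h x rfl]
    have hd : Disjoint {x} {y | y ∈ l} := by
      rw [Set.disjoint_singleton_left]
      exact hl.1
    have hsp : ∀ v, pr p (parEv (x :: l) v) = qq p x.length true * pr p (parEv l (!v)) +
        qq p x.length false * pr p (parEv l v) := by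
      intro v
      have h1 : parEv (x :: l) v = ({A : Oracle | A x = true} ∩ parEv l (!v)) ∪
          ({A : Oracle | A x = false} ∩ parEv l v) := by
        ext A
        simp only [parEv, List.map_cons, xorl_cons, Set.mem_ofPred_eq, Set.mem_union,
          Set.mem_inter_iff]
        cases A x <;> cases xorl (l.map A) <;> cases v <;> simp
      have h2 : pr p (parEv (x :: l) v) = pr p ({A : Oracle | A x = true} ∩ parEv l (!v)) +
          pr p ({A : Oracle | A x = false} ∩ parEv l v) := by
        rw [h1]
        unfold pr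
        refine measureReal_union ?_ ?_
        · rw [Set.disjoint_left]
          rintro A ⟨h3, _⟩ ⟨h4, _⟩
          rw [Set.mem_ofPred_eq] at h3 h4
          rw [h3] at h4
          exact absurd h4 (by simp)
        · exact (measurableSet_of_loc (Set.finite_singleton x) (hL false)).inter
            (measurableSet_of_loc (finite_mem l) (loc_parEv l v))
      rw [h2, pr_inter_of_disjoint (Set.finite_singleton x) (finite_mem l) hd (hL _) (loc_parEv _ _),
        pr_inter_of_disjoint (Set.finite_singleton x) (finite_mem l) hd (hL _) (loc_parEv _ _),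
        pr_single, pr_single]
    have q1 : qq p x.length true = (p x.length : ℝ) := by simp [qq]
    have q2 : qq p x.length false = 1 - (p x.length : ℝ) := by simp [qq]
    constructor
    · rw [hsp, Bool.not_true, ih1, ih2, q1, q2, List.map_cons, List.prod_cons]
      ring
    · rw [hsp, Bool.not_false, ih1, ih2, q1, q2, List.map_cons, List.prod_cons]
      ring

theorem abs_factor_le (t : unitInterval) : |1 - 2 * (t : ℝ)| = 1 - 2 * min (t : ℝ) (1 - t) := by
  rcases le_total (t : ℝ) (1 - t) with h | h
  · rw [min_eq_left h, abs_of_nonneg (by linarith)]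
  · rw [min_eq_right h, abs_of_nonpos (by linarith)]
    ring

theorem abs_prod_le (N : ℕ) (l : List (List Bool)) :
    |(l.map fun x => 1 - 2 * (p x.length : ℝ)).prod| ≤
      Real.exp (-(2 * min (p N : ℝ) (1 - p N) * (l.filter fun x => x.length = N).length)) := by
  induction l with
  | nil => simp
  | cons x l ih =>
    rw [List.map_cons, List.prod_cons, abs_mul]
    have h0 : |1 - 2 * (p x.length : ℝ)| ≤ 1 := by
      rw [abs_le]
      constructor <;> linarith [(p x.length).2.1, (p x.length).2.2]
    by_cases hx : x.length = N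
    · have h1 : (((x :: l).filter fun x => x.length = N).length : ℝ) =
          (l.filter fun x => x.length = N).length + 1 := by
        rw [List.filter_cons_of_pos (by simpa using hx)]
        push_cast [List.length_cons]
        ring
      rw [h1]
      have h2 : |1 - 2 * (p x.length : ℝ)| ≤ Real.exp (-(2 * min (p N : ℝ) (1 - p N))) := by
        rw [abs_factor_le, hx]
        have := Real.add_one_le_exp (-(2 * min (p N : ℝ) (1 - p N)))
        linarith
      calc |1 - 2 * (p x.length : ℝ)| * |(l.map fun x => 1 - 2 * (p x.length : ℝ)).prod| ≤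
            Real.exp (-(2 * min (p N : ℝ) (1 - p N))) *
            Real.exp (-(2 * min (p N : ℝ) (1 - p N) * (l.filter fun x => x.length = N).length)) :=
            mul_le_mul h2 ih (abs_nonneg _) (Real.exp_nonneg _)
        _ = _ := by
            rw [← Real.exp_add]
            congr 1
            ring
    · rw [List.filter_cons_of_neg (by simpa using hx)]
      calc |1 - 2 * (p x.length : ℝ)| * |(l.map fun x => 1 - 2 * (p x.length : ℝ)).prod| ≤
            1 * |(l.map fun x => 1 - 2 * (p x.length : ℝ)).prod| :=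
            mul_le_mul_of_nonneg_right h0 (abs_nonneg _)
        _ ≤ _ := by rw [one_mul]; exact ih

theorem pr_parEv_le {l : List (List Bool)} (hl : l.Nodup) (v : Bool) {β : ℝ}
    (hβ : |(l.map fun x => 1 - 2 * (p x.length : ℝ)).prod| ≤ β) :
    pr p (parEv l v) ≤ (1 + β) / 2 := by
  have h := pr_parEv (p := p) l hl
  have h1 := abs_le.1 hβ
  cases v with
  | true => rw [h.1]; linarith [h1.1]
  | false => rw [h.2]; linarith [h1.2]

/-- the coins -/
def coins (cell : ℕ → List (List Bool)) (Q : ℕ) (A : Oracle) : List Bool :=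
  (List.range Q).map fun i => xorl ((cell i).map A)

theorem length_coins (cell : ℕ → List (List Bool)) (Q : ℕ) (A : Oracle) :
    (coins cell Q A).length = Q := by simp [coins]

/-- the strings which are used -/
def used (cell : ℕ → List (List Bool)) (Q : ℕ) : Set (List Bool) := {x | ∃ i < Q, x ∈ cell i}

theorem finite_used (cell : ℕ → List (List Bool)) (Q : ℕ) : (used cell Q).Finite := by
  have h : used cell Q = ⋃ i ∈ Finset.range Q, {x | x ∈ cell i} := by
    ext x
    simp [used]
  rw [h]
  exact Set.Finite.biUnion (Finset.finite_toSet _) fun i _ => finite_mem _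

theorem coins_congr (cell : ℕ → List (List Bool)) (Q : ℕ) {A A' : Oracle}
    (h : ∀ x ∈ used cell Q, A x = A' x) : coins cell Q A = coins cell Q A' := by
  unfold coins
  refine List.map_congr_left fun i hi => ?_
  rw [List.mem_range] at hi
  congr 1
  exact List.map_congr_left fun x hx => h x ⟨i, hi, hx⟩

theorem pr_coins_aux {cell : ℕ → List (List Bool)} {c : ℝ}
    (hc : ∀ i v, pr p (parEv (cell i) v) ≤ c) (r : ℕ → Bool) : ∀ Q : ℕ,
    (∀ i < Q, ∀ j < Q, i ≠ j → ∀ x ∈ cell i, x ∉ cell j) →
    pr p {A | ∀ i < Q, xorl ((cell i).map A) = r i} ≤ c ^ Q := by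
  have hc0 : 0 ≤ c := (pr_nonneg _).trans (hc 0 true)
  intro Q
  induction Q with
  | zero => intro _; simpa using pr_le_one (p := p) _
  | succ Q ih =>
    intro hd
    have h1 : {A : Oracle | ∀ i < Q + 1, xorl ((cell i).map A) = r i} =
        {A : Oracle | ∀ i < Q, xorl ((cell i).map A) = r i} ∩ parEv (cell Q) (r Q) := by
      ext A
      simp only [Set.mem_ofPred_eq, Set.mem_inter_iff, parEv]
      constructor
      · intro h
        exact ⟨fun i hi => h i (by omega), h Q (by omega)⟩
      · rintro ⟨h2, h3⟩ i hi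
        rcases Nat.lt_succ_iff_lt_or_eq.1 hi with h4 | h4
        · exact h2 i h4
        · rw [h4]; exact h3
    have hloc : Loc (used cell Q) {A : Oracle | ∀ i < Q, xorl ((cell i).map A) = r i} := by
      intro A A' h
      simp only [Set.mem_ofPred_eq]
      refine forall₂_congr fun i hi => ?_
      have : (cell i).map A = (cell i).map A' :=
        List.map_congr_left fun x hx => h x ⟨i, hi, hx⟩
      rw [this]
    have hdis : Disjoint (used cell Q) {x | x ∈ cell Q} := by
      rw [Set.disjoint_left]
      rintro x ⟨i, hi, hx⟩ hx2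
      exact hd i (by omega) Q (by omega) (by omega) x hx hx2
    rw [h1, pr_inter_of_disjoint (finite_used cell Q) (finite_mem _) hdis hloc (loc_parEv _ _),
      pow_succ]
    exact mul_le_mul (ih fun i hi j hj => hd i (by omega) j (by omega)) (hc Q _) (pr_nonneg _)
      (pow_nonneg hc0 _)

theorem pr_coins_mem {cell : ℕ → List (List Bool)} {c : ℝ}
    (hc : ∀ i v, pr p (parEv (cell i) v) ≤ c) {Q : ℕ}
    (hd : ∀ i < Q, ∀ j < Q, i ≠ j → ∀ x ∈ cell i, x ∉ cell j) (R : Finset (List Bool)) :
    pr p {A | coins cell Q A ∈ R} ≤ R.card * c ^ Q := by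
  classical
  have h1 : {A : Oracle | coins cell Q A ∈ R} ⊆ ⋃ r ∈ R,
      {A : Oracle | ∀ i < Q, xorl ((cell i).map A) = r.getD i false} := by
    intro A hA
    rw [Set.mem_iUnion₂]
    refine ⟨coins cell Q A, hA, fun i hi => ?_⟩
    simp [coins, List.getD, hi]
  have h2 : pr p (⋃ r ∈ R, {A : Oracle | ∀ i < Q, xorl ((cell i).map A) = r.getD i false}) ≤
      ∑ r ∈ R, pr p {A : Oracle | ∀ i < Q, xorl ((cell i).map A) = r.getD i false} :=
    measureReal_biUnion_finset_le _ _
  refine (pr_mono h1).trans (h2.trans ?_)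
  rw [← nsmul_eq_mul]
  exact Finset.sum_le_card_nsmul _ _ _ fun r _ => pr_coins_aux hc _ Q hd

/-- independent blocks of coins, and a set of values which depends on other bits only -/
theorem pr_blocks {t : ℕ} {cell : ℕ → ℕ → List (List Bool)} {Q : ℕ} {u : ℝ}
    (hu : ∀ j < t, ∀ R : Finset (List Bool), pr p {A | coins (cell j) Q A ∈ R} ≤ R.card * u)
    (hu0 : 0 ≤ u)
    (hd : ∀ i < t, ∀ j < t, i ≠ j → Disjoint (used (cell i) Q) (used (cell j) Q))
    {K : Set (List Bool)} (hK : K.Finite) (S : Finset ℕ) (hS : ∀ j ∈ S, j < t)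
    (hKS : ∀ j ∈ S, Disjoint K (used (cell j) Q))
    (Φ : Oracle → Finset (List Bool)) (hΦ : ∀ R, Loc K {A | Φ A = R})
    (hΦw : ∀ A, Φ A ⊆ words Q) (M : ℝ) (hM : 0 ≤ M) :
    pr p {A | ((Φ A).card : ℝ) ≤ M ∧ ∀ j ∈ S, coins (cell j) Q A ∈ Φ A} ≤ (M * u) ^ S.card := by
  classical
  -- independence
  have hloc : ∀ (j : ℕ) (R : Finset (List Bool)),
      Loc (used (cell j) Q) {A : Oracle | coins (cell j) Q A ∈ R} := by
    intro j R A A' h
    simp only [Set.mem_ofPred_eq]
    rw [coins_congr (cell j) Q h]
  have key : ∀ (R : Finset (List Bool)), (R.card : ℝ) ≤ M → ∀ S' : Finset ℕ, S' ⊆ S →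
      pr p ({A | Φ A = R} ∩ {A | ∀ j ∈ S', coins (cell j) Q A ∈ R}) ≤
        pr p {A | Φ A = R} * (M * u) ^ S'.card := by
    intro R hR S'
    induction S' using Finset.induction_on with
    | empty =>
      intro _
      simp
    | insert j S' hj ih =>
      intro hsub
      have h1 : ({A : Oracle | Φ A = R} ∩ {A | ∀ i ∈ insert j S', coins (cell i) Q A ∈ R}) =
          ({A | Φ A = R} ∩ {A | ∀ i ∈ S', coins (cell i) Q A ∈ R}) ∩
            {A | coins (cell j) Q A ∈ R} := by
        ext A
        simp only [Set.mem_inter_iff, Set.mem_ofPred_eq, Finset.mem_insert, forall_eq_or_imp]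
        tauto
      set K' : Set (List Bool) := K ∪ ⋃ i ∈ S', used (cell i) Q with hK'
      have hK'f : K'.Finite := hK.union
        (Set.Finite.biUnion (Finset.finite_toSet _) fun i _ => finite_used _ _)
      have hl : Loc K' ({A | Φ A = R} ∩ {A | ∀ i ∈ S', coins (cell i) Q A ∈ R}) := by
        intro A A' h
        have e1 := hΦ R A A' fun x hx => h x (Or.inl hx)
        have e2 : (∀ i ∈ S', coins (cell i) Q A ∈ R) ↔ ∀ i ∈ S', coins (cell i) Q A' ∈ R := by
          refine forall₂_congr fun i hi => ?_
          exact hloc i R A A' fun x hx => h x (Or.inr (Set.mem_biUnion hi hx))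
        exact and_congr e1 e2
      have hdj : Disjoint K' (used (cell j) Q) := by
        rw [hK', Set.disjoint_union_left]
        refine ⟨hKS j (hsub (Finset.mem_insert_self _ _)), ?_⟩
        rw [Set.disjoint_iUnion₂_left]
        intro i hi
        refine hd i (hS i (hsub (Finset.mem_insert_of_mem hi))) j
          (hS j (hsub (Finset.mem_insert_self _ _))) ?_
        rintro rfl
        exact hj hi
      rw [h1, pr_inter_of_disjoint hK'f (finite_used _ _) hdj hl (hloc j R),
        Finset.card_insert_of_notMem hj, pow_succ, ← mul_assoc]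
      refine mul_le_mul (ih fun i hi => hsub (Finset.mem_insert_of_mem hi))
        ((hu j (hS j (hsub (Finset.mem_insert_self _ _))) R).trans
          (mul_le_mul_of_nonneg_right hR hu0)) (pr_nonneg _) ?_
      exact mul_nonneg (pr_nonneg _) (pow_nonneg (mul_nonneg hM hu0) _)
  have hMu : 0 ≤ (M * u) ^ S.card := pow_nonneg (mul_nonneg hM hu0) _
  set T := ((words Q).powerset).filter fun R => (R.card : ℝ) ≤ M with hT
  have h1 : {A : Oracle | ((Φ A).card : ℝ) ≤ M ∧ ∀ j ∈ S, coins (cell j) Q A ∈ Φ A} ⊆
      ⋃ R ∈ T, ({A | Φ A = R} ∩ {A | ∀ j ∈ S, coins (cell j) Q A ∈ R}) := by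
    rintro A ⟨hA1, hA2⟩
    rw [Set.mem_iUnion₂]
    exact ⟨Φ A, Finset.mem_filter.2 ⟨Finset.mem_powerset.2 (hΦw A), hA1⟩, rfl, hA2⟩
  have h2 : pr p (⋃ R ∈ T, ({A | Φ A = R} ∩ {A | ∀ j ∈ S, coins (cell j) Q A ∈ R})) ≤
      ∑ R ∈ T, pr p ({A | Φ A = R} ∩ {A | ∀ j ∈ S, coins (cell j) Q A ∈ R}) :=
    measureReal_biUnion_finset_le _ _
  have h3 : ∑ R ∈ T, pr p {A : Oracle | Φ A = R} ≤ 1 := by
    refine sum_pr_le T (fun R => {A : Oracle | Φ A = R})
      (fun R _ => measurableSet_of_loc hK (hΦ R)) 1 fun A => ?_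
    rw [← Nat.cast_one, Nat.cast_le, Finset.card_le_one]
    intro R hR R' hR'
    simp only [Finset.mem_filter, Set.mem_ofPred_eq] at hR hR'
    exact hR.2.symm.trans hR'.2
  calc pr p {A : Oracle | ((Φ A).card : ℝ) ≤ M ∧ ∀ j ∈ S, coins (cell j) Q A ∈ Φ A} ≤
        ∑ R ∈ T, pr p ({A | Φ A = R} ∩ {A | ∀ j ∈ S, coins (cell j) Q A ∈ R}) :=
        (pr_mono h1).trans h2
    _ ≤ ∑ R ∈ T, pr p {A : Oracle | Φ A = R} * (M * u) ^ S.card :=
        Finset.sum_le_sum fun R hR => key R (Finset.mem_filter.1 hR).2 S (Finset.Subset.refl _)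
    _ = (∑ R ∈ T, pr p {A : Oracle | Φ A = R}) * (M * u) ^ S.card := by rw [Finset.sum_mul]
    _ ≤ 1 * (M * u) ^ S.card := mul_le_mul_of_nonneg_right h3 hMu
    _ = (M * u) ^ S.card := one_mul _

end Pool.Agent.H530R3.Bp
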