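import Pool.Agent.H530R3.Bp.Ask
import Pool.Agent.H530R3.Bp.Coin

/-!
# The probability that most of the samples are wrong
-/

set_option autoImplicit false

namespace Pool.Agent.H530R3.Bp

open Pool.Agent.NPC Pool.Agent.H628R3.RO MeasureTheory
open Pool.Agent.H530R3.Thr hiding InP inNP_of_inP
open Pool.Agent.H530R3.Am (sum_pr_le)

variable {p : ℕ → unitInterval}

/-- the answer for the coins `r` is not `b` -/
def wr (M : Alg) (x : List Bool) (b : Bool) (A : Oracle) (r : List Bool) : Prop :=
  decide (M.out A (pairBits x r) = some [true]) ≠ b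

/-- some question is in the block `j` -/
def tou (M : Alg) (x : List Bool) (U : ℕ → Set (List Bool)) (S : Finset ℕ) (A : Oracle)
    (r : List Bool) : Prop :=
  ∃ z ∈ asked M A (pairBits x r), ∃ j ∈ S, z ∈ U j

open Classical in
/-- the blocks are filled with `false` -/
noncomputable def blank (U : ℕ → Set (List Bool)) (S : Finset ℕ) (A : Oracle) : Oracle :=
  fun z => if ∃ j ∈ S, z ∈ U j then false else A z

theorem tou_blank (M : Alg) (x : List Bool) (U : ℕ → Set (List Bool)) (S : Finset ℕ) (A : Oracle)
    (r : List Bool) : (tou M x U S (blank U S A) r ↔ tou M x U S A r) ∧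
      (¬ tou M x U S A r → M.out (blank U S A) (pairBits x r) = M.out A (pairBits x r)) := by
  have h1 : ¬ tou M x U S A r → asked M (blank U S A) (pairBits x r) = asked M A (pairBits x r) ∧
      M.out (blank U S A) (pairBits x r) = M.out A (pairBits x r) := by
    intro h
    refine asked_congr M _ fun z hz => ?_
    unfold blank
    rw [if_neg fun h2 => h ⟨z, hz, h2⟩]
  have h2 : ¬ tou M x U S (blank U S A) r →
      asked M A (pairBits x r) = asked M (blank U S A) (pairBits x r) := by
    intro h
    refine (asked_congr M _ fun z hz => ?_).1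
    unfold blank
    rw [if_neg fun h2 => h ⟨z, hz, h2⟩]
  refine ⟨⟨fun h => ?_, fun h => ?_⟩, fun h => (h1 h).2⟩
  · by_contra h3
    refine h3 ?_
    obtain ⟨z, hz, h4⟩ := h
    exact ⟨z, (h1 h3).1 ▸ hz, h4⟩
  · by_contra h3
    refine h3 ?_
    obtain ⟨z, hz, h4⟩ := h
    exact ⟨z, (h2 h3) ▸ hz, h4⟩

open Classical in
/-- the values of the coins for which the blocks are touched or the answer is wrong -/
noncomputable def Phi (M : Alg) (x : List Bool) (U : ℕ → Set (List Bool)) (Q : ℕ) (b : Bool)
    (S : Finset ℕ) (A : Oracle) : Finset (List Bool) :=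
  (words Q).filter fun r => tou M x U S (blank U S A) r ∨ wr M x b (blank U S A) r

theorem Phi_congr (M : Alg) (x : List Bool) (U : ℕ → Set (List Bool)) (Q : ℕ) (b : Bool)
    (S : Finset ℕ) {ℓ : ℕ} (hℓ : ∀ A, ∀ r ∈ words Q, ∀ z ∈ asked M A (pairBits x r), z.length ≤ ℓ)
    {A A' : Oracle} (h : ∀ z, z.length ≤ ℓ → (∀ j ∈ S, z ∉ U j) → A z = A' z) :
    Phi M x U Q b S A = Phi M x U Q b S A' := by
  classical
  unfold Phi
  refine Finset.filter_congr fun r hr => ?_
  have h1 : ∀ z ∈ asked M (blank U S A) (pairBits x r), blank U S A' z = blank U S A z := by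
    intro z hz
    unfold blank
    split_ifs with h2
    · rfl
    · push Not at h2
      exact (h z (hℓ _ r hr z hz) h2).symm
  have h2 := asked_congr M _ h1
  unfold tou wr
  rw [h2.1, h2.2]

open Classical in
/-- Markov's inequality -/
theorem mul_pr_le {ι : Type*} (T : Finset ι) (E : ι → Set Oracle)
    (hE : ∀ i ∈ T, MeasurableSet (E i)) (c : ℝ) (Z : Set Oracle)
    (h : ∀ A ∈ Z, c ≤ ((T.filter fun i => A ∈ E i).card : ℝ)) (hc : 0 ≤ c) :
    c * pr p Z ≤ ∑ i ∈ T, pr p (E i) := by
  have e2 : ∫ A, ∑ i ∈ T, (E i).indicator (fun _ => (1 : ℝ)) A ∂(biasedOracle p) =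
      ∑ i ∈ T, pr p (E i) := by
    rw [integral_finsetSum]
    · refine Finset.sum_congr rfl fun i hi => ?_
      rw [integral_indicator_const _ (hE i hi)]
      unfold pr
      rw [smul_eq_mul, mul_one]
    · intro i hi
      exact (integrable_const _).indicator (hE i hi)
  rw [← e2]
  have h3 := mul_meas_ge_le_integral_of_nonneg (μ := biasedOracle p)
    (f := fun A => ∑ i ∈ T, (E i).indicator (fun _ => (1 : ℝ)) A)
    (Filter.Eventually.of_forall fun A => Finset.sum_nonneg fun i _ =>
      Set.indicator_nonneg (fun _ _ => zero_le_one) _)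
    (integrable_finsetSum _ fun i hi => (integrable_const _).indicator (hE i hi)) c
  refine le_trans ?_ h3
  refine mul_le_mul_of_nonneg_left (pr_mono fun A hA => ?_) hc
  rw [Set.mem_ofPred_eq]
  refine (h A hA).trans (le_of_eq ?_)
  rw [Finset.card_filter]
  push_cast
  refine Finset.sum_congr rfl fun i _ => ?_
  rw [Set.indicator_apply]

open Classical in
/-- the blocks which are touched often are few -/
theorem card_heavy (M : Alg) (x : List Bool) (U : ℕ → Set (List Bool)) (Q t d : ℕ) (A : Oracle)
    (hd : ∀ r ∈ words Q, (asked M A (pairBits x r)).length ≤ d)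
    (hU : ∀ i < t, ∀ j < t, i ≠ j → Disjoint (U i) (U j)) (C : ℕ) :
    ((Finset.range t).filter fun j =>
      2 ^ Q < C * ((words Q).filter fun r => tou M x U {j} A r).card).card ≤ C * d := by
  set H := (Finset.range t).filter fun j =>
      2 ^ Q < C * ((words Q).filter fun r => tou M x U {j} A r).card with hH
  have h1 : ∑ j ∈ Finset.range t, ((words Q).filter fun r => tou M x U {j} A r).card ≤
      2 ^ Q * d := by
    simp only [Finset.card_filter]
    rw [Finset.sum_comm, ← card_words Q, ← smul_eq_mul]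
    refine Finset.sum_le_card_nsmul _ _ _ fun r hr => ?_
    rw [← Finset.card_filter]
    refine le_trans ?_ (hd r hr)
    -- an injection from the touched blocks to the questions
    have h2 : ∀ j ∈ (Finset.range t).filter (fun j => tou M x U {j} A r),
        ∃ z ∈ asked M A (pairBits x r), z ∈ U j := by
      intro j hj
      obtain ⟨z, hz, i, hi, hzi⟩ := (Finset.mem_filter.1 hj).2
      rw [Finset.mem_singleton] at hi
      subst hi
      exact ⟨z, hz, hzi⟩
    choose! f hf1 hf2 using h2
    refine le_trans ?_ (List.toFinset_card_le (asked M A (pairBits x r)))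
    refine Finset.card_le_card_of_injOn f (fun j hj => ?_) ?_
    · exact List.mem_toFinset.2 (hf1 j hj)
    · intro i hi j hj hij
      by_contra hne
      have h3 := hU i (Finset.mem_range.1 (Finset.mem_filter.1 hi).1) j
        (Finset.mem_range.1 (Finset.mem_filter.1 hj).1) hne
      exact Set.disjoint_left.1 h3 (hf2 i hi) (hij ▸ hf2 j hj)
  have h2 : H.card * 2 ^ Q ≤ C * (2 ^ Q * d) := by
    calc H.card * 2 ^ Q = ∑ _j ∈ H, 2 ^ Q := by rw [Finset.sum_const, smul_eq_mul]
      _ ≤ ∑ j ∈ H, C * ((words Q).filter fun r => tou M x U {j} A r).card :=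
          Finset.sum_le_sum fun j hj => (Finset.mem_filter.1 hj).2.le
      _ ≤ ∑ j ∈ Finset.range t, C * ((words Q).filter fun r => tou M x U {j} A r).card :=
          Finset.sum_le_sum_of_subset (Finset.filter_subset _ _)
      _ = C * ∑ j ∈ Finset.range t, ((words Q).filter fun r => tou M x U {j} A r).card := by
          rw [Finset.mul_sum]
      _ ≤ C * (2 ^ Q * d) := Nat.mul_le_mul_left _ h1
  have h3 : 0 < 2 ^ Q := by positivity
  have h4 : H.card * 2 ^ Q ≤ (C * d) * 2 ^ Q := by
    calc H.card * 2 ^ Q ≤ C * (2 ^ Q * d) := h2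
      _ = (C * d) * 2 ^ Q := by ring
  exact Nat.le_of_mul_le_mul_right h4 h3

theorem card_tou_le (M : Alg) (x : List Bool) (U : ℕ → Set (List Bool)) (Q : ℕ) (A : Oracle) :
    ∀ S : Finset ℕ, by classical exact ((words Q).filter fun r => tou M x U S A r).card ≤
      ∑ j ∈ S, ((words Q).filter fun r => tou M x U {j} A r).card := by
  classical
  intro S
  have h1 : ((words Q).filter fun r => tou M x U S A r) ⊆
      S.biUnion fun j => (words Q).filter fun r => tou M x U {j} A r := by
    intro r hr
    obtain ⟨hr1, z, hz, j, hj, hzj⟩ := Finset.mem_filter.1 hr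
    exact Finset.mem_biUnion.2 ⟨j, hj, Finset.mem_filter.2 ⟨hr1, z, hz, j,
      Finset.mem_singleton_self j, hzj⟩⟩
  exact (Finset.card_le_card h1).trans Finset.card_biUnion_le

theorem choose_ratio (w k : ℕ) : (20 * w).choose k * 9 ^ k ≤ 20 ^ k * (9 * w + k).choose k := by
  have h1 : k.factorial * (20 * w).choose k ≤ (20 * w) ^ k := by
    rw [← Nat.descFactorial_eq_factorial_mul_choose]
    exact Nat.descFactorial_le_pow _ _
  have h2 : (9 * w) ^ k ≤ k.factorial * (9 * w + k).choose k := by
    rw [← Nat.descFactorial_eq_factorial_mul_choose]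
    refine le_trans ?_ (Nat.pow_sub_le_descFactorial _ _)
    exact Nat.pow_le_pow_left (by omega) _
  have h3 : 0 < k.factorial := Nat.factorial_pos k
  refine Nat.le_of_mul_le_mul_left (c := k.factorial) ?_ h3
  calc k.factorial * ((20 * w).choose k * 9 ^ k) = (k.factorial * (20 * w).choose k) * 9 ^ k := by ring
    _ ≤ (20 * w) ^ k * 9 ^ k := Nat.mul_le_mul_right _ h1
    _ = 20 ^ k * (9 * w) ^ k := by rw [← mul_pow, ← mul_pow]; congr 1; ring
    _ ≤ 20 ^ k * (k.factorial * (9 * w + k).choose k) := Nat.mul_le_mul_left _ h2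
    _ = k.factorial * (20 ^ k * (9 * w + k).choose k) := by ring

open Classical in
theorem pr_wrong (M : Alg) (x : List Bool) (b : Bool) {cell : ℕ → ℕ → List (List Bool)} {Q : ℕ}
    {u : ℝ} {t w k d ℓ : ℕ}
    (hu : ∀ j < t, ∀ R : Finset (List Bool), pr p {A | coins (cell j) Q A ∈ R} ≤ R.card * u)
    (hu0 : 0 ≤ u) (hu1 : 2 ^ Q * u ≤ 21 / 20) (ht : t = 20 * w)
    (hw : 100 * k * d + k ≤ w)
    (hd : ∀ i < t, ∀ j < t, i ≠ j → Disjoint (used (cell i) Q) (used (cell j) Q))
    (hask : ∀ A, ∀ r ∈ words Q, (asked M A (pairBits x r)).length ≤ d)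
    (hℓ : ∀ A, ∀ r ∈ words Q, ∀ z ∈ asked M A (pairBits x r), z.length ≤ ℓ) :
    pr p {A | 3 * ((words Q).filter fun r => wr M x b A r).card ≤ 2 ^ Q ∧
      t ≤ 2 * ((Finset.range t).filter fun j => wr M x b A (coins (cell j) Q A)).card} ≤
      (8 / 9) ^ k := by
  set U : ℕ → Set (List Bool) := fun j => used (cell j) Q with hU
  set Z : Set Oracle := {A | 3 * ((words Q).filter fun r => wr M x b A r).card ≤ 2 ^ Q ∧
      t ≤ 2 * ((Finset.range t).filter fun j => wr M x b A (coins (cell j) Q A)).card} with hZ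
  set M0 : ℝ := (1 / 3 + 1 / 100) * 2 ^ Q with hM0
  have hM00 : 0 ≤ M0 := by positivity
  have hM0u : M0 * u ≤ 2 / 5 := by
    calc M0 * u = (1 / 3 + 1 / 100) * (2 ^ Q * u) := by rw [hM0]; ring
      _ ≤ (1 / 3 + 1 / 100) * (21 / 20) := mul_le_mul_of_nonneg_left hu1 (by norm_num)
      _ ≤ 2 / 5 := by norm_num
  set E : Finset ℕ → Set Oracle := fun S =>
    {A | ((Phi M x U Q b S A).card : ℝ) ≤ M0 ∧ ∀ j ∈ S, coins (cell j) Q A ∈ Phi M x U Q b S A}
    with hE
  set T := Finset.powersetCard k (Finset.range t) with hT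
  have hTlt : ∀ S ∈ T, ∀ j ∈ S, j < t := by
    intro S hS j hj
    exact Finset.mem_range.1 ((Finset.mem_powersetCard.1 hS).1 hj)
  -- the probability of one event
  have hpr : ∀ S ∈ T, pr p (E S) ≤ (2 / 5) ^ k := by
    intro S hS
    set K : Set (List Bool) := {z | z.length ≤ ℓ ∧ ∀ j ∈ S, z ∉ U j} with hK
    have hKf : K.Finite := (List.finite_length_le Bool ℓ).subset fun z hz => hz.1
    have h1 := pr_blocks (p := p) (t := t) (u := u) hu hu0 hd hKf S (hTlt S hS)
      (fun j hj => Set.disjoint_left.2 fun z hz hz2 => hz.2 j hj hz2) (Phi M x U Q b S)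
      (fun R A A' h => by
        simp only [Set.mem_ofPred_eq]
        rw [Phi_congr M x U Q b S hℓ fun z hz hz2 => h z ⟨hz, hz2⟩])
      (fun A => Finset.filter_subset _ _) M0 hM00
    rw [(Finset.mem_powersetCard.1 hS).2] at h1
    exact h1.trans (pow_le_pow_left₀ (mul_nonneg hM00 hu0) hM0u k)
  -- measurability
  have hmeas : ∀ S ∈ T, MeasurableSet (E S) := by
    intro S hS
    have hKf : ({z : List Bool | z.length ≤ ℓ} ∪ ⋃ j ∈ S, U j).Finite :=
      (List.finite_length_le Bool ℓ).union
        (Set.Finite.biUnion (Finset.finite_toSet _) fun i _ => finite_used _ _)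
    refine measurableSet_of_loc hKf fun A A' h => ?_
    have e1 : Phi M x U Q b S A = Phi M x U Q b S A' :=
      Phi_congr M x U Q b S hℓ fun z hz _ => h z (Or.inl hz)
    have e2 : ∀ j ∈ S, coins (cell j) Q A = coins (cell j) Q A' := fun j hj =>
      coins_congr _ _ fun z hz => h z (Or.inr (Set.mem_biUnion hj hz))
    show (_ ∧ _) ↔ (_ ∧ _)
    rw [e1]
    exact and_congr_right fun _ => forall₂_congr fun j hj => by rw [e2 j hj]
  -- many events happen
  have hmany : ∀ A ∈ Z, (((9 * w + k).choose k : ℕ) : ℝ) ≤ ((T.filter fun S => A ∈ E S).card : ℝ) := by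
    rintro A ⟨hA1, hA2⟩
    set J := (Finset.range t).filter fun j => wr M x b A (coins (cell j) Q A) with hJ
    set H := (Finset.range t).filter fun j =>
      2 ^ Q < (100 * k) * ((words Q).filter fun r => tou M x U {j} A r).card with hH
    have hHc : H.card ≤ 100 * k * d := card_heavy M x U Q t d A (hask A) hd (100 * k)
    have hJc : 9 * w + k ≤ (J \ H).card := by
      have h1 := Finset.le_card_sdiff H J
      omega
    have hsub : Finset.powersetCard k (J \ H) ⊆ T.filter fun S => A ∈ E S := by
      intro S hS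
      obtain ⟨hS1, hS2⟩ := Finset.mem_powersetCard.1 hS
      have hSt : S ⊆ Finset.range t := fun j hj =>
        (Finset.mem_filter.1 (Finset.mem_sdiff.1 (hS1 hj)).1).1
      refine Finset.mem_filter.2 ⟨Finset.mem_powersetCard.2 ⟨hSt, hS2⟩, ?_, ?_⟩
      · -- the size
        have h1 : Phi M x U Q b S A ⊆ ((words Q).filter fun r => tou M x U S A r) ∪
            ((words Q).filter fun r => wr M x b A r) := by
          intro r hr
          obtain ⟨hr1, hr2⟩ := Finset.mem_filter.1 hr
          by_cases h2 : tou M x U S A r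
          · exact Finset.mem_union_left _ (Finset.mem_filter.2 ⟨hr1, h2⟩)
          · refine Finset.mem_union_right _ (Finset.mem_filter.2 ⟨hr1, ?_⟩)
            rcases hr2 with h3 | h3
            · exact absurd ((tou_blank M x U S A r).1.1 h3) h2
            · unfold wr at h3 ⊢
              rwa [(tou_blank M x U S A r).2 h2] at h3
        have h2 : 100 * ((words Q).filter fun r => tou M x U S A r).card ≤ 2 ^ Q := by
          have h3 := card_tou_le M x U Q A S
          have h4 : ∀ j ∈ S, 100 * k * ((words Q).filter fun r => tou M x U {j} A r).card ≤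
              2 ^ Q := by
            intro j hj
            by_contra h5
            push Not at h5
            exact (Finset.mem_sdiff.1 (hS1 hj)).2 (Finset.mem_filter.2 ⟨hSt hj, h5⟩)
          rcases Nat.eq_zero_or_pos k with hk | hk
          · have h6 : S = ∅ := Finset.card_eq_zero.1 (hS2.trans hk)
            rw [h6] at h3 ⊢
            simp only [Finset.sum_empty] at h3
            omega
          · have h5 : k * (100 * ∑ j ∈ S,
                ((words Q).filter fun r => tou M x U {j} A r).card) ≤ k * 2 ^ Q := by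
              calc k * (100 * ∑ j ∈ S, ((words Q).filter fun r => tou M x U {j} A r).card) =
                    ∑ j ∈ S, 100 * k * ((words Q).filter fun r => tou M x U {j} A r).card := by
                    rw [← Finset.mul_sum]
                    ring
                _ ≤ ∑ _j ∈ S, 2 ^ Q := Finset.sum_le_sum h4
                _ = k * 2 ^ Q := by rw [Finset.sum_const, hS2, smul_eq_mul]
            have h6 := Nat.le_of_mul_le_mul_left h5 hk
            omega
        have h3 : (Phi M x U Q b S A).card ≤ ((words Q).filter fun r => tou M x U S A r).card +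
            ((words Q).filter fun r => wr M x b A r).card :=
          (Finset.card_le_card h1).trans (Finset.card_union_le _ _)
        have h4 : ((Phi M x U Q b S A).card : ℝ) ≤
            (((words Q).filter fun r => tou M x U S A r).card : ℝ) +
            (((words Q).filter fun r => wr M x b A r).card : ℝ) := by exact_mod_cast h3
        have h5 : (100 : ℝ) * (((words Q).filter fun r => tou M x U S A r).card : ℝ) ≤ 2 ^ Q := by
          exact_mod_cast h2
        have h6 : (3 : ℝ) * (((words Q).filter fun r => wr M x b A r).card : ℝ) ≤ 2 ^ Q := by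
          exact_mod_cast hA1
        rw [hM0]
        linarith
      · intro j hj
        have h1 : wr M x b A (coins (cell j) Q A) :=
          (Finset.mem_filter.1 (Finset.mem_sdiff.1 (hS1 hj)).1).2
        refine Finset.mem_filter.2 ⟨mem_words.2 (length_coins _ _ _), ?_⟩
        by_cases h2 : tou M x U S A (coins (cell j) Q A)
        · exact Or.inl ((tou_blank M x U S A _).1.2 h2)
        · refine Or.inr ?_
          unfold wr at h1 ⊢
          rwa [(tou_blank M x U S A _).2 h2]
    have h2 := Finset.card_le_card hsub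
    rw [Finset.card_powersetCard] at h2
    have h3 : (9 * w + k).choose k ≤ (J \ H).card.choose k := Nat.choose_le_choose k hJc
    exact_mod_cast h3.trans h2
  have h1 := mul_pr_le (p := p) T E hmeas (((9 * w + k).choose k : ℕ) : ℝ) Z
    (fun A hA => le_of_le_of_eq (hmany A hA) (by congr!)) (Nat.cast_nonneg _)
  have h2 : ∑ S ∈ T, pr p (E S) ≤ ((20 * w).choose k : ℕ) * (2 / 5) ^ k := by
    refine (Finset.sum_le_card_nsmul _ _ _ hpr).trans ?_
    rw [nsmul_eq_mul, hT, Finset.card_powersetCard, Finset.card_range, ht]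
  have h3 : (((20 * w).choose k : ℕ) : ℝ) * 9 ^ k ≤ 20 ^ k * ((9 * w + k).choose k : ℕ) := by
    exact_mod_cast choose_ratio w k
  have hpos : (0 : ℝ) < ((9 * w + k).choose k : ℕ) := by
    exact_mod_cast Nat.choose_pos (by omega)
  have h4 : (((20 * w).choose k : ℕ) : ℝ) * (2 / 5) ^ k ≤
      ((9 * w + k).choose k : ℕ) * (8 / 9) ^ k := by
    have e1 : (2 / 5 : ℝ) ^ k = 9 ^ k * (8 / 9) ^ k / 20 ^ k := by
      rw [← mul_pow, ← div_pow]
      norm_num
    rw [e1, mul_div_assoc', ← mul_assoc, div_le_iff₀ (by positivity)]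
    calc (((20 * w).choose k : ℕ) : ℝ) * 9 ^ k * (8 / 9) ^ k ≤
          20 ^ k * ((9 * w + k).choose k : ℕ) * (8 / 9) ^ k :=
          mul_le_mul_of_nonneg_right h3 (by positivity)
      _ = _ := by ring
  have h5 : (((9 * w + k).choose k : ℕ) : ℝ) * pr p Z ≤ ((9 * w + k).choose k : ℕ) * (8 / 9) ^ k :=
    h1.trans (h2.trans h4)
  exact le_of_mul_le_mul_left h5 hpos

end Pool.Agent.H530R3.Bp
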