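import Pool.Agent.H530R3.Bp.Main

/-!
# The final statements
-/

set_option autoImplicit false

namespace Pool.Agent.H530R3.Bp

open Pool.Agent.NPC Pool.Agent.H628R3.RO MeasureTheory
open Pool.Agent.H530R3.Thr hiding InP inNP_of_inP
open Pool.Agent.H583R2.S2 (IsP)

variable {p : ℕ → unitInterval}

/-- `RP` relative to `A` (one-sided error, a string in the language is accepted with probability at
least `2 / 3`). -/
def IsRP (A : Oracle) (L : Set (List Bool)) : Prop :=
  ∃ (V : List Bool → List Bool) (q : Polynomial ℕ), IsFP A V ∧ ∀ x,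
    (x ∈ L → 2 * 2 ^ q.eval x.length ≤ 3 * accBPP V (q.eval x.length) x) ∧
    (x ∉ L → accBPP V (q.eval x.length) x = 0)

theorem IsRP.isBPP {A : Oracle} {L : Set (List Bool)} (h : IsRP A L) : IsBPP A L := by
  obtain ⟨V, q, hV, h⟩ := h
  exact ⟨V, q, hV, fun x => ⟨(h x).1, fun hx => by rw [(h x).2 hx]; simp⟩⟩

theorem IsP.isRP {A : Oracle} {L : Set (List Bool)} (h : IsP A L) : IsRP A L := by
  obtain ⟨V, hV, h⟩ := h
  refine ⟨fun z => V (unpair z).1, 0, IsFP.comp (G := V) hV (IsFP.of_poly (p_un1 Poly.id)),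
    fun x => ?_⟩
  simp only [Polynomial.eval_zero, pow_zero, mul_one]
  constructor
  · intro hx
    have e : {r : List Bool | r.length = 0 ∧ V (unpair (pairBits x r)).1 = [true]} = {[]} := by
      ext r
      simp only [unpair_pairBits, Set.mem_ofPred_eq, List.length_eq_zero_iff,
        Set.mem_singleton_iff]
      exact and_iff_left ((h x).1 hx)
    unfold accBPP
    rw [e, Set.ncard_singleton]
    norm_num
  · intro hx
    have e : {r : List Bool | r.length = 0 ∧ V (unpair (pairBits x r)).1 = [true]} = ∅ := by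
      ext r
      simp only [unpair_pairBits, Set.mem_ofPred_eq, Set.mem_empty_iff_false, iff_false, not_and]
      exact fun _ h2 => hx ((h x).2 h2)
    unfold accBPP
    rw [e, Set.ncard_empty]

theorem Rich.not_summable (hp : Rich p) : ¬ Summable (lam p) := by
  intro h
  obtain ⟨P, hP⟩ := hp
  obtain ⟨C, hC⟩ := h.tendsto_atTop_zero.bddAbove_range
  obtain ⟨m, hm⟩ := exists_nat_gt C
  obtain ⟨N, _, hN⟩ := hP m
  have := hC ⟨N, rfl⟩
  linarith

theorem rich_of_exp {ε : ℝ} (hε : 0 < ε)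
    (h : ∀ᶠ n : ℕ in Filter.atTop, (2 : ℝ) ^ (ε * n) ≤ lam p n) : Rich p := by
  obtain ⟨n₀, hn₀⟩ := Filter.eventually_atTop.1 h
  obtain ⟨c, hc⟩ := exists_nat_gt (1 / ε)
  have hcpos : 0 < c := by
    rcases Nat.eq_zero_or_pos c with h0 | h0
    · rw [h0] at hc
      have : 0 < 1 / ε := by positivity
      norm_num at hc
      linarith
    · exact h0
  have hcε : 1 ≤ ε * c := by
    rw [div_lt_iff₀ hε] at hc
    linarith
  refine ⟨Polynomial.C (2 ^ n₀) * (2 * Polynomial.X + 1) ^ c, fun m =>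
    ⟨n₀ + c * Nat.clog 2 m, ?_, ?_⟩⟩
  · have h1 : 2 ^ Nat.clog 2 m ≤ 2 * m + 1 := by
      rcases Nat.lt_or_ge m 2 with h2 | h2
      · have h3 : Nat.clog 2 m = 0 := Nat.clog_of_right_le_one (by omega) 2
        rw [h3]
        omega
      · have h3 := Nat.pow_pred_clog_lt_self (b := 2) (by norm_num) (x := m) (by omega)
        have h4 : 0 < Nat.clog 2 m := Nat.clog_pos (by norm_num) h2
        have h5 : 2 ^ Nat.clog 2 m = 2 * 2 ^ (Nat.clog 2 m).pred := by
          rw [← pow_succ']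
          congr 1
          exact (Nat.succ_pred_eq_of_pos h4).symm
        omega
    simp only [Polynomial.eval_mul, Polynomial.eval_C, Polynomial.eval_pow, Polynomial.eval_add,
      Polynomial.eval_ofNat, Polynomial.eval_X, Polynomial.eval_one]
    rw [pow_add, mul_comm c, pow_mul]
    exact Nat.mul_le_mul_left _ (Nat.pow_le_pow_left h1 c)
  · refine le_trans ?_ (hn₀ _ (Nat.le_add_right _ _))
    have h1 : (m : ℝ) ≤ (2 : ℝ) ^ ((Nat.clog 2 m : ℕ) : ℝ) := by
      rw [Real.rpow_natCast]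
      exact_mod_cast Nat.le_pow_clog (by norm_num) m
    refine h1.trans (Real.rpow_le_rpow_of_exponent_le (by norm_num) ?_)
    push_cast
    have h2 : (0 : ℝ) ≤ Nat.clog 2 m := Nat.cast_nonneg _
    have h3 : (0 : ℝ) ≤ n₀ := Nat.cast_nonneg _
    nlinarith [mul_nonneg hε.le h3, mul_le_mul_of_nonneg_right hcε h2]

theorem main (hp : Rich p) : ∀ᵐ A ∂(biasedOracle p),
    (∀ L : Set (List Bool), (IsP A L ↔ IsRP A L) ∧ (IsRP A L ↔ IsBPP A L)) ∧
    ∃ L : Set (List Bool), IsNP A L ∧ ¬ IsRP A L ∧ ¬ IsNP A Lᶜ ∧ ¬ IsAM A Lᶜ := by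
  filter_upwards [ae_bpp hp, divergent p hp.not_summable] with A h1 h2
  refine ⟨fun L => ⟨⟨IsP.isRP, fun h => h1 L h.isBPP⟩, ⟨IsRP.isBPP, fun h => IsP.isRP (h1 L h)⟩⟩, ?_⟩
  obtain ⟨L, e1, e2, e3, e4, _⟩ := h2
  exact ⟨L, e1, fun h => e4 h.isBPP, e3, e2⟩

end Pool.Agent.H530R3.Bp
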