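import Pool.Agent.H530R3.Bp.Alg
import Pool.Agent.H530R3.Am.Main

/-!
# Almost surely `P = BPP` relative to random oracles with small densities
-/

set_option autoImplicit false

namespace Pool.Agent.H530R3.Bp

open Pool.Agent.NPC Pool.Agent.H628R3.RO MeasureTheory
open Pool.Agent.H530R3.Thr hiding InP inNP_of_inP
open Pool.Agent.H583R2.S2 (IsP)
open Pool.Agent.H530R3.Am (ae_eventually_not eighth)

variable {p : ℕ → unitInterval}

/-- For every `m` there is a level `N` with at least `m` strings, in expectation, which have the less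
likely bit, and the number `2 ^ N` of all strings of this level is bounded by a polynomial in `m`. -/
def Rich (p : ℕ → unitInterval) : Prop :=
  ∃ P : Polynomial ℕ, ∀ m : ℕ, ∃ N : ℕ, 2 ^ N ≤ P.eval m ∧ (m : ℝ) ≤ lam p N

open Classical in
/-- most of the samples give the wrong answer -/
def Zev (M : Alg) (Q w B : ℕ) (x : List Bool) (b : Bool) : Set Oracle :=
  {A | 3 * ((words Q).filter fun r => wr M x b A r).card ≤ 2 ^ Q ∧
    20 * w ≤ 2 * ((Finset.range (20 * w)).filter fun j =>
      wr M x b A (coins (cell B (20 * w) Q j) Q A)).card}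

/-- the parameters -/
theorem ae_good (hp : Rich p) (M : Alg) (q : Polynomial ℕ) : ∃ w Bp : Polynomial ℕ,
    ∀ᵐ A ∂(biasedOracle p), ∃ n₀, ∀ n ≥ n₀, ∀ x ∈ words n, ∀ b,
      A ∉ Zev M (q.eval n) (w.eval n) (Bp.eval n) x b := by
  classical
  obtain ⟨P, hP⟩ := hp
  obtain ⟨bb, hbb⟩ := asked_short M
  set ln : Polynomial ℕ := 2 * Polynomial.X + 1 + q with hln
  have hlne : ∀ n, ln.eval n = 2 * n + 1 + q.eval n := by
    intro n
    simp only [hln, Polynomial.eval_add, Polynomial.eval_mul, Polynomial.eval_X,
      Polynomial.eval_ofNat, Polynomial.eval_one]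
  set w : Polynomial ℕ := 100 * (18 * Polynomial.X) * (M.p.comp ln) + 18 * Polynomial.X with hw
  have hwe : ∀ n, w.eval n = 100 * (18 * n) * M.p.eval (ln.eval n) + 18 * n := by
    intro n
    simp only [hw, Polynomial.eval_add, Polynomial.eval_mul, Polynomial.eval_X,
      Polynomial.eval_ofNat, Polynomial.eval_comp]
  set Rm : Polynomial ℕ := 25 * (q + 1) * (20 * w * q) with hRm
  have hRme : ∀ n, Rm.eval n = 25 * (q.eval n + 1) * (20 * w.eval n * q.eval n) := by
    intro n
    simp only [hRm, Polynomial.eval_add, Polynomial.eval_mul, Polynomial.eval_ofNat,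
      Polynomial.eval_one]
  refine ⟨w, 2 * P.comp Rm, ?_⟩
  have hE : ∀ n, pr p (⋃ x ∈ words n, ⋃ b ∈ (Finset.univ : Finset Bool),
      Zev M (q.eval n) (w.eval n) ((2 * P.comp Rm).eval n) x b) ≤ 2 * (1 / 4) ^ n := by
    intro n
    obtain ⟨N, hN1, hN2⟩ := hP (Rm.eval n)
    have hB : 2 ^ (N + 1) ≤ (2 * P.comp Rm).eval n := by
      rw [Polynomial.eval_mul, Polynomial.eval_ofNat, Polynomial.eval_comp, pow_succ]
      omega
    have hlam : 25 * (((q.eval n : ℕ) : ℝ) + 1) * (((20 * w.eval n : ℕ) : ℝ) * (q.eval n : ℕ)) ≤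
        lam p N := by
      refine le_trans (le_of_eq ?_) hN2
      rw [hRme]
      push_cast
      ring
    have hlen : ∀ x ∈ words n, ∀ r ∈ words (q.eval n), (pairBits x r).length = ln.eval n := by
      intro x hx r hr
      rw [length_pairBits, mem_words.1 hx, mem_words.1 hr, hlne]
    have h1 : ∀ x ∈ words n, ∀ b, pr p (Zev M (q.eval n) (w.eval n) ((2 * P.comp Rm).eval n) x b) ≤
        (1 / 8) ^ n := by
      intro x hx b
      refine le_trans ?_ (eighth n)
      refine pr_wrong M x b (pr_block hB hlam) (by positivity) (two_pow_mul_le _) rfl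
        (d := M.p.eval (ln.eval n)) (ℓ := bb.eval (ln.eval n)) (w := w.eval n) ?_
        (fun i _ j _ hij => cell_disjoint_block hij) ?_ ?_
      · rw [hwe]
      · intro A r hr
        have := asked_length M A (pairBits x r)
        rwa [hlen x hx r hr] at this
      · intro A r hr z hz
        have := hbb A (pairBits x r) z hz
        rwa [hlen x hx r hr] at this
    calc pr p (⋃ x ∈ words n, ⋃ b ∈ (Finset.univ : Finset Bool),
          Zev M (q.eval n) (w.eval n) ((2 * P.comp Rm).eval n) x b) ≤
          ∑ x ∈ words n, pr p (⋃ b ∈ (Finset.univ : Finset Bool),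
            Zev M (q.eval n) (w.eval n) ((2 * P.comp Rm).eval n) x b) :=
          measureReal_biUnion_finset_le _ _
      _ ≤ ∑ _x ∈ words n, 2 * (1 / 8 : ℝ) ^ n := by
          refine Finset.sum_le_sum fun x hx => ?_
          refine (measureReal_biUnion_finset_le _ _).trans ?_
          refine (Finset.sum_le_sum fun b _ => h1 x hx b).trans ?_
          rw [Finset.sum_const, Finset.card_univ, Fintype.card_bool, nsmul_eq_mul]
          norm_num
      _ = 2 * (1 / 4) ^ n := by
          rw [Finset.sum_const, card_words, nsmul_eq_mul]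
          push_cast
          rw [show (1 / 4 : ℝ) = 2 * (1 / 8) by norm_num, mul_pow]
          ring
  have hs : Summable fun n : ℕ => 2 * (1 / 4 : ℝ) ^ n :=
    (summable_geometric_of_lt_one (by norm_num) (by norm_num)).mul_left 2
  filter_upwards [ae_eventually_not hs (Filter.Eventually.of_forall hE)] with A hA
  obtain ⟨n₀, hn₀⟩ := hA
  refine ⟨n₀, fun n hn x hx b hb => hn₀ n hn ?_⟩
  exact Set.mem_biUnion hx (Set.mem_biUnion (Finset.mem_univ b) hb)

/-- almost surely `P = BPP` -/
theorem ae_bpp (hp : Rich p) :
    ∀ᵐ A ∂(biasedOracle p), ∀ L : Set (List Bool), IsBPP A L → IsP A L := by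
  classical
  have hc : Countable Alg := Alg.countable
  have hcp : Countable (Polynomial ℕ) := countable_polynomial
  choose w Bp h using fun M : Alg => fun q : Polynomial ℕ => ae_good (p := p) hp M q
  have h1 : ∀ᵐ A ∂(biasedOracle p), ∀ (M : Alg) (q : Polynomial ℕ), ∃ n₀, ∀ n ≥ n₀,
      ∀ x ∈ words n, ∀ b, A ∉ Zev M (q.eval n) ((w M q).eval n) ((Bp M q).eval n) x b := by
    rw [ae_all_iff]
    intro M
    rw [ae_all_iff]
    intro q
    exact h M q
  filter_upwards [h1] with A hA L hL
  obtain ⟨V, q, ⟨M, hM⟩, hL⟩ := hL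
  obtain ⟨n₀, hn₀⟩ := hA M q
  refine isP_patch (isP_maj q (w M q) (Bp M q) ⟨M, hM⟩) n₀ fun x hx => ?_
  have hgood := hn₀ x.length hx x (mem_words.2 rfl)
  set Q := q.eval x.length with hQ
  set W := (w M q).eval x.length with hW
  set B := (Bp M q).eval x.length with hB
  have hwt : ∀ r, wr M x true A r ↔ ¬ V (pairBits x r) = [true] := by
    intro r
    unfold wr
    rw [hM]
    simp
  have hwf : ∀ r, wr M x false A r ↔ V (pairBits x r) = [true] := by
    intro r
    unfold wr
    rw [hM]
    simp
  have hacc : accBPP V Q x = ((words Q).filter fun r => V (pairBits x r) = [true]).card := by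
    unfold accBPP
    rw [← Set.ncard_coe_finset]
    congr 1
    ext r
    simp [mem_words]
  have h3 : x ∈ L → 2 * 2 ^ Q ≤ 3 * accBPP V Q x := (hL x).1
  have h4 : x ∉ L → 3 * accBPP V Q x ≤ 2 ^ Q := (hL x).2
  rw [hacc] at h3 h4
  have s1 := Finset.card_filter_add_card_filter_not (s := words Q)
    (fun r => V (pairBits x r) = [true])
  rw [card_words] at s1
  have s2 := Finset.card_filter_add_card_filter_not (s := Finset.range (20 * W))
    (fun i => V (pairBits x (coins (cell B (20 * W) Q i) Q A)) = [true])
  rw [Finset.card_range] at s2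
  show x ∈ L ↔ 20 * W < 2 * ((Finset.range (20 * W)).filter fun i =>
    V (pairBits x (coins (cell B (20 * W) Q i) Q A)) = [true]).card
  constructor
  · intro hxL
    by_contra hcon
    refine hgood true ⟨?_, ?_⟩
    · have e : ((words Q).filter fun r => wr M x true A r) =
          (words Q).filter fun r => ¬ V (pairBits x r) = [true] :=
        Finset.filter_congr fun r _ => hwt r
      rw [e]
      have := h3 hxL
      omega
    · have e : ((Finset.range (20 * W)).filter fun j =>
          wr M x true A (coins (cell B (20 * W) Q j) Q A)) =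
          (Finset.range (20 * W)).filter fun i =>
            ¬ V (pairBits x (coins (cell B (20 * W) Q i) Q A)) = [true] :=
        Finset.filter_congr fun j _ => hwt _
      rw [e]
      omega
  · intro hmaj
    by_contra hxL
    refine hgood false ⟨?_, ?_⟩
    · have e : ((words Q).filter fun r => wr M x false A r) =
          (words Q).filter fun r => V (pairBits x r) = [true] :=
        Finset.filter_congr fun r _ => hwf r
      rw [e]
      exact h4 hxL
    · have e : ((Finset.range (20 * W)).filter fun j =>
          wr M x false A (coins (cell B (20 * W) Q j) Q A)) =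
          (Finset.range (20 * W)).filter fun i =>
            V (pairBits x (coins (cell B (20 * W) Q i) Q A)) = [true] :=
        Finset.filter_congr fun j _ => hwf _
      rw [e]
      exact hmaj.le

end Pool.Agent.H530R3.Bp
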